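import Pool.Agent.Helper97.Ku.GoalsC

/-! Enumerations, levels and rows (packet 2126). -/

namespace Pool.Agent.Helper97.Ku.PkRow

open Set

theorem countable_Iio_Om (a : Om) : (Iio a).Countable := by
  have h1 : (Iio (a : Ordinal.{0})).Countable := by
    have h2 : (a : Ordinal.{0}).card < Cardinal.aleph 1 :=
      Cardinal.lt_omega_iff_card_lt.mp a.2
    rw [← Cardinal.le_aleph0_iff_set_countable]
    rw [Cardinal.mk_Iio_ordinal]
    have h3 : (a : Ordinal.{0}).card ≤ Cardinal.aleph0 := by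
      rw [← Cardinal.succ_aleph0] at h2
      exact Order.lt_succ_iff.mp h2
    calc Cardinal.lift.{1} (a : Ordinal.{0}).card ≤ Cardinal.lift.{1} Cardinal.aleph0 :=
          Cardinal.lift_le.mpr h3
      _ = Cardinal.aleph0 := Cardinal.lift_aleph0
  exact (h1.preimage Subtype.val_injective).mono fun x hx => hx

theorem infinite_w0 (G : Grd Om) : (Iio G.w0).Infinite := by
  intro hf
  obtain ⟨m, hm, hmax⟩ := hf.exists_maximal ⟨G.c0, G.w0_pos⟩
  obtain ⟨j, hj, hj'⟩ := G.w0_lim m hm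
  exact absurd (hmax hj' hj.le) (not_le.mpr hj)

theorem ens : G_ENS := by
  intro G X hX hne
  have hc : (Iio G.w0).Countable := countable_Iio_Om G.w0
  have hi := infinite_w0 G
  have key : ∃ f, Enum G X f := by
    have : Countable (Iio G.w0) := hc.to_subtype
    have : Infinite (Iio G.w0) := hi.to_subtype
    have : Countable X := hX.to_subtype
    have : Nonempty X := hne.to_subtype
    obtain ⟨e⟩ : Nonempty (Iio G.w0 ≃ ℕ) := by
      have := Encodable.ofCountable (Iio G.w0)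
      have : Denumerable (Iio G.w0) := Denumerable.ofEncodableOfInfinite _
      exact ⟨Denumerable.eqv _⟩
    obtain ⟨g, hg, hg'⟩ : ∃ g : ℕ → X, Function.Surjective g ∧
        (X.Infinite → Function.Injective g) := by
      by_cases h : X.Infinite
      · have : Infinite X := h.to_subtype
        have := Encodable.ofCountable X
        have : Denumerable X := Denumerable.ofEncodableOfInfinite _
        exact ⟨(Denumerable.eqv X).symm, (Denumerable.eqv X).symm.surjective,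
          fun _ => (Denumerable.eqv X).symm.injective⟩
      · obtain ⟨g, hg⟩ := exists_surjective_nat X
        exact ⟨g, hg, fun h' => absurd h' h⟩
    classical
    refine ⟨fun k => if hk : k < G.w0 then (g (e ⟨k, hk⟩) : Set Om) else ∅, ?_, ?_, ?_⟩
    · intro k hk
      simp only [dif_pos hk]
      exact (g (e ⟨k, hk⟩)).2
    · intro s hs
      obtain ⟨n, hn⟩ := hg ⟨s, hs⟩
      refine ⟨(e.symm n).1, (e.symm n).2, ?_⟩
      have hk : (e.symm n).1 < G.w0 := (e.symm n).2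
      simp only [dif_pos hk]
      have : e ⟨(e.symm n).1, hk⟩ = n := by
        rw [Subtype.coe_eta, Equiv.apply_symm_apply]
      rw [this, hn]
    · intro hinf j k hj hk hjk
      simp only [dif_pos hj, dif_pos hk] at hjk
      have h1 := e.injective (hg' hinf (Subtype.ext hjk))
      exact congrArg Subtype.val h1
  unfold enS
  rw [dif_pos key]
  exact key.choose_spec

theorem lev_countable (p : Cond) (γ : Om) : (lev p γ).Countable := p.S_ct.image _

theorem lev_nonempty (p : Cond) (γ : Om) : (lev p γ).Nonempty := p.S_ne.image _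

theorem lev_self (p : Cond) : lev p p.g = p.S := (le_refl p).2.1

theorem lev_le {p q : Cond} {γ : Om} (h : q ≤ p) (hγ : γ ≤ p.g) : lev q γ = lev p γ := by
  unfold lev
  rw [← h.2.1, image_image]
  exact image_congr fun s _ => (inter_inter_Iio hγ s).symm

theorem tN_pos (G : Grd Om) {p : Cond} {γ k β : Om} (hγ : γ ≤ p.g)
    (h : β ∈ enS G (lev p γ) k) : p ∈ tN G γ k β := by
  intro q hq
  refine ⟨q, le_rfl, hγ.trans hq.1, ?_⟩
  rw [lev_le hq hγ]
  exact h

theorem tN_neg (G : Grd Om) {p : Cond} {γ k β : Om} (hγ : γ ≤ p.g)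
    (h : β ∉ enS G (lev p γ) k) : p ∈ (tN G γ k β)ᶜ := by
  intro q hq hq'
  obtain ⟨r, hr, _, hr'⟩ := hq' q le_rfl
  rw [lev_le (hr.trans hq) hγ] at hr'
  exact h hr'

theorem row_val {p q : Cond} {ξ : Kap} {s : Set Om} (h : q ≤ p)
    (hs : p.v (.row ξ) = some (.nd s)) :
    ∃ s', q.v (.row ξ) = some (.nd s') ∧ s' ∩ Iio p.g = s := by
  obtain ⟨y, hy, hy'⟩ := h.2.2 _ _ hs
  cases y with
  | nd s' =>
    refine ⟨s', hy, ?_⟩
    simp only [Val.res, Val.nd.injEq] at hy'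
    exact hy'
  | od η => simp [Val.res] at hy'

theorem rowN_pos {p : Cond} {ξ : Kap} {s : Set Om} {β : Om}
    (hs : p.v (.row ξ) = some (.nd s)) (hβ : β < p.g) (h : β ∈ s) : p ∈ rowN ξ β := by
  intro q hq
  obtain ⟨s', hs', he⟩ := row_val hq hs
  refine ⟨q, le_rfl, s', hs', lt_of_lt_of_le hβ hq.1, ?_⟩
  rw [← he] at h
  exact h.1

theorem rowN_neg {p : Cond} {ξ : Kap} {s : Set Om} {β : Om}
    (hs : p.v (.row ξ) = some (.nd s)) (hβ : β < p.g) (h : β ∉ s) : p ∈ (rowN ξ β)ᶜ := by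
  intro q hq hq'
  obtain ⟨r, hr, s1, hs1, _, hβ1⟩ := hq' q le_rfl
  obtain ⟨s', hs', he⟩ := row_val (hr.trans hq) hs
  rw [hs1] at hs'
  simp only [Option.some.injEq, Val.nd.injEq] at hs'
  apply h
  rw [← he, ← hs']
  exact ⟨hβ1, hβ⟩

theorem mem_eqB {a b : BA} {p : Cond} :
    p ∈ eqB a b ↔ ∀ q, q ≤ p → (q ∈ a ↔ q ∈ b) := by
  unfold eqB
  rw [RO.mem_inf, RO.mem_himp, RO.mem_himp]
  constructor
  · rintro ⟨h1, h2⟩ q hq
    exact ⟨h1 q hq, h2 q hq⟩
  · intro h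
    exact ⟨fun q hq => (h q hq).1, fun q hq => (h q hq).2⟩

theorem ndV_iff (G : Grd Om) {p : Cond} (a : Om → BA) {γ k : Om} (hγ : γ ≤ p.g) :
    p ∈ ndV G a γ k ↔ ∀ β, β < γ →
    (β ∈ enS G (lev p γ) k → p ∈ a β) ∧ (β ∉ enS G (lev p γ) k → p ∈ (a β)ᶜ) := by
  unfold ndV
  rw [RO.mem_iInf]
  constructor
  · intro h β hβ
    have h1 := RO.mem_iInf.mp (h β) hβ
    rw [mem_eqB] at h1
    refine ⟨fun h2 => (h1 p le_rfl).mpr (tN_pos G hγ h2), fun h2 => ?_⟩
    intro q hq hqa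
    exact (tN_neg G hγ h2) q hq ((h1 q hq).mp hqa)
  · intro h β
    rw [RO.mem_iInf]
    intro hβ
    rw [mem_eqB]
    intro q hq
    obtain ⟨h1, h2⟩ := h β hβ
    by_cases h3 : β ∈ enS G (lev p γ) k
    · exact ⟨fun _ => RO.lower hq (tN_pos G hγ h3), fun _ => RO.lower hq (h1 h3)⟩
    · exact ⟨fun h4 => absurd h4 (h2 h3 q hq), fun h4 => absurd h4 (tN_neg G hγ h3 q hq)⟩

theorem ndV_row (he : G_ENS) (G : Grd Om) {p : Cond} {ξ : Kap} {s : Set Om} {γ k : Om}
    (hs : p.v (.row ξ) = some (.nd s)) (hγ : γ ≤ p.g) (hk : k < G.w0) :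
    p ∈ ndV G (rowN ξ) γ k ↔ enS G (lev p γ) k = s ∩ Iio γ := by
  rw [ndV_iff G _ hγ]
  have h1 : enS G (lev p γ) k ∈ lev p γ := (he G _ (lev_countable p γ) (lev_nonempty p γ)).1 k hk
  have h2 : enS G (lev p γ) k ⊆ Iio γ := by
    obtain ⟨t, _, ht⟩ := h1
    rw [← ht]
    exact inter_subset_right
  constructor
  · intro h
    ext β
    constructor
    · intro hβ
      have hlt : β < γ := h2 hβ
      refine ⟨?_, hlt⟩
      by_contra hc
      exact RO.not_mem_compl ((h β hlt).1 hβ) (rowN_neg hs (lt_of_lt_of_le hlt hγ) hc)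
    · rintro ⟨hβ, hlt⟩
      by_contra hc
      exact RO.not_mem_compl (rowN_pos hs (lt_of_lt_of_le hlt hγ) hβ) ((h β hlt).2 hc)
  · intro h β hβ
    rw [h]
    constructor
    · rintro ⟨h3, _⟩
      exact rowN_pos hs (lt_of_lt_of_le hβ hγ) h3
    · intro h3
      exact rowN_neg hs (lt_of_lt_of_le hβ hγ) fun h4 => h3 ⟨h4, hβ⟩

theorem brV_row (he : G_ENS) (hl : G_LIFT) (G : Grd Om) {p : Cond} {ξ : Kap} {s : Set Om}
    (hs : p.v (.row ξ) = some (.nd s)) : p ∈ brV G (rowN ξ) := by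
  unfold brV
  rw [RO.mem_iInf]
  intro γ
  rw [RO.mem_iSup]
  intro q hq
  obtain ⟨s1, hs1, _⟩ := row_val hq hs
  obtain ⟨r, hr, hrg, hrv⟩ := hl q (max q.g γ) (le_max_left _ _)
  have hγ : γ ≤ r.g := by rw [hrg]; exact le_max_right _ _
  have hs2 : r.v (.row ξ) = some (.nd s1) := by rw [hrv]; exact hs1
  have h1 : s1 ∩ Iio γ ∈ lev r γ := ⟨s1, r.v_ok _ _ hs2, rfl⟩
  obtain ⟨k, hk, hk'⟩ := (he G _ (lev_countable r γ) (lev_nonempty r γ)).2.1 _ h1
  refine ⟨r, hr, k, ?_⟩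
  rw [RO.mem_inf, bo_true hk]
  exact ⟨RO.mem_top r, (ndV_row he G hs2 hγ hk).mpr hk'⟩

theorem neV_row (hl : G_LIFT) (G : Grd Om) {p : Cond} {ξ ξ' : Kap} {s s' : Set Om}
    (hne : ξ ≠ ξ') (hs : p.v (.row ξ) = some (.nd s)) (hs' : p.v (.row ξ') = some (.nd s')) :
    p ∈ neV (rowN ξ) (rowN ξ') := by
  unfold neV
  rw [RO.mem_iSup]
  intro q hq
  obtain ⟨t, ht, _⟩ := row_val hq hs
  obtain ⟨t', ht', _⟩ := row_val hq hs'
  obtain ⟨β', hβ'⟩ := G.nomax q.g
  obtain ⟨r0, hr0, hg, hv⟩ := hl q β' hβ'.le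
  have hlt : q.g < r0.g := by rw [hg]; exact hβ'
  have ht0 : r0.v (.row ξ) = some (.nd t) := by rw [hv]; exact ht
  have ht0' : r0.v (.row ξ') = some (.nd t') := by rw [hv]; exact ht'
  have htS' : t' ∈ r0.S := r0.v_ok _ _ ht0'
  have hsub' : t' ⊆ Iio q.g := q.S_sub t' (q.v_ok _ _ ht')
  obtain ⟨u', hu', hu1, hu2⟩ : ∃ u' ∈ r0.S, u' ∩ Iio q.g = t' ∩ Iio q.g ∧
      ¬ (q.g ∈ t ↔ q.g ∈ u') := by
    by_cases h : (q.g ∈ t ↔ q.g ∈ t')
    · obtain ⟨u', h1, h2, h3⟩ := r0.S_spl t' htS' q.g hlt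
      exact ⟨u', h1, h2, fun h4 => h3 (h4.symm.trans h)⟩
    · exact ⟨t', htS', rfl, h⟩
  have hok : Ok r0.S (.row ξ') (.nd u') := hu'
  have hne' : Coord.row ξ ≠ Coord.row ξ' := by
    intro h
    simp only [Coord.row.injEq] at h
    exact hne h
  have hrt : (upd r0 (.row ξ') (.nd u') hok).v (.row ξ) = some (.nd t) := by
    rw [upd_v_ne r0 _ hok hne']; exact ht0
  have hrt' : (upd r0 (.row ξ') (.nd u') hok).v (.row ξ') = some (.nd u') :=
    upd_v_self r0 _ _ hok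
  have hrq : upd r0 (.row ξ') (.nd u') hok ≤ q := by
    refine ⟨hr0.1, hr0.2.1, fun c x hx => ?_⟩
    by_cases hc : c = .row ξ'
    · subst hc
      rw [ht'] at hx
      simp only [Option.some.injEq] at hx
      refine ⟨.nd u', hrt', ?_⟩
      rw [← hx]
      simp only [Val.res, Val.nd.injEq]
      rw [hu1]
      exact inter_eq_left.mpr hsub'
    · refine ⟨x, ?_, q.res_self hx⟩
      rw [upd_v_ne r0 _ hok hc, hv]
      exact hx
  refine ⟨_, hrq, q.g, ?_⟩
  intro w hw hw'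
  rw [mem_eqB] at hw'
  by_cases h : q.g ∈ t
  · have h2 : q.g ∉ u' := fun h3 => hu2 ⟨fun _ => h3, fun _ => h⟩
    have h3 := RO.lower hw (rowN_pos hrt (by simpa using hlt) h)
    exact (rowN_neg hrt' (by simpa using hlt) h2) w hw ((hw' w le_rfl).mp h3)
  · have h2 : q.g ∈ u' := by
      by_contra h3
      exact hu2 ⟨fun h4 => absurd h4 h, fun h4 => absurd h4 h3⟩
    have h3 := RO.lower hw (rowN_pos hrt' (by simpa using hlt) h2)
    exact (rowN_neg hrt (by simpa using hlt) h) w hw ((hw' w le_rfl).mpr h3)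

theorem row : G_ENS → G_LIFT → G_ROW := fun he hl G p =>
  ⟨fun γ => ⟨lev_countable p γ, lev_nonempty p γ⟩, lev_self p, fun _ _ h hγ => lev_le h hγ,
    fun _ _ _ hγ h => tN_pos G hγ h, fun _ _ _ hγ h => tN_neg G hγ h,
    fun _ _ _ hs hβ h => rowN_pos hs hβ h, fun _ _ _ hs hβ h => rowN_neg hs hβ h,
    fun _ _ _ _ hs hγ hk => ndV_row he G hs hγ hk, fun a _ _ hγ _ => ndV_iff G a hγ,
    fun _ _ hs => brV_row he hl G hs, fun _ _ _ _ hne hs hs' => neV_row hl G hne hs hs'⟩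

end Pool.Agent.Helper97.Ku.PkRow
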